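import Pool.Agent.H17.NF.N
import Pool.Agent.H29.T1.S2

/-!
# NF: elliptic curves over number fields with trivial 2-Selmer group: definitions

`K` is a number field, `𝓞 K` its ring of integers, `n` its degree.  The cubic polynomials are
`f = x³ + a_1 x² + a_2 x + a_3` over `𝓞 K`, `a_i = f.coeff (3 - i)`.  The definitions of T1 are used
with `R = 𝓞 K`, `g = 1`: `Zer`, `OkP`, `Sing`, `Smooth`, `US`, `TR`, `Bad`, `StdP`, `Twi`, `Nm`,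
`CompP`, `SelK`, `LSDK`, and `Cpl` of TOW, `LocSol`, `gr`, `SplM`, `NSq`, `TyL`, `OkL` of HYP.
-/

set_option autoImplicit false

namespace Pool.NF

open Polynomial Matrix NumberField IsDedekindDomain Pool.HYP Pool.TOW Pool.AVS Pool.T1

section Defs

variable (K : Type) [Field K] [NumberField K]

/-- The monic cubic polynomials with `|a_i| ≤ Y^i` at all archimedean places. -/
def AllN (Y : ℝ) : Set (𝓞 K)[X] :=
  {f | f.Monic ∧ f.natDegree = 3 ∧ ∀ i ≤ 3, f.coeff (3 - i) ∈ Bx K (Y ^ i)}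

/-- The data: the primes of `T`, where `f` is linear times irreducible, and of `T'`, where `f` is
irreducible. -/
structure DatN where
  /-- the primes where `f` is linear times irreducible -/
  T : Finset (HeightOneSpectrum (𝓞 K))
  /-- the primes where `f` is irreducible -/
  T' : Finset (HeightOneSpectrum (𝓞 K))
  /-- the roots -/
  c : HeightOneSpectrum (𝓞 K) → 𝓞 K
  /-- the factors of degree two -/
  γ : HeightOneSpectrum (𝓞 K) → (𝓞 K)[X]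
  /-- the polynomials at the primes of `T'` -/
  ρ : HeightOneSpectrum (𝓞 K) → (𝓞 K)[X]

variable {K}

/-- The conditions on the data. -/
def DatN.Ok (D : DatN K) : Prop :=
  Disjoint D.T D.T' ∧ (∀ P ∈ D.T, OkP 2 P.asIdeal (D.γ P)) ∧
    (∀ P ∈ D.T', OkP 3 P.asIdeal (D.ρ P)) ∧
    ∀ P : HeightOneSpectrum (𝓞 K), (2 : 𝓞 K) ∈ P.asIdeal ∨ (3 : 𝓞 K) ∈ P.asIdeal → P ∈ D.T'

/-- At all archimedean places `f` is close to `x³ - Y³`. -/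
def NearN (Y : ℕ) (f : (𝓞 K)[X]) : Prop :=
  f.coeff 2 ∈ Bx K ((Y : ℝ) / 100) ∧ f.coeff 1 ∈ Bx K ((Y : ℝ) ^ 2 / 100) ∧
    f.coeff 0 + (Y : 𝓞 K) ^ 3 ∈ Bx K ((Y : ℝ) ^ 3 / 100)

/-- The family. -/
def FamN (D : DatN K) (Y : ℕ) : Set (𝓞 K)[X] :=
  {f | f.Monic ∧ f.natDegree = 3 ∧ NearN Y f ∧
    (∀ P ∈ D.T, Zer P.asIdeal (f - (X - C (D.c P)) * D.γ P)) ∧
    ∀ P ∈ D.T', Zer P.asIdeal (f - D.ρ P)}

/-- `d` may be used for the twist by the subset `S` of `T`. -/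
def TwiN (T T' S : Finset (HeightOneSpectrum (𝓞 K))) (d : 𝓞 K) : Prop :=
  Twi T T' S d ∧ ∃ e : 𝓞 K, d = 1 + 8 * e

/-- The pairs of symmetric matrices attached to `f` and `d` (with the constant `B`). -/
def PMN (B : ℝ) (D : DatN K) (Y : ℕ) (d : Fin 3 → ℤ) (f : (𝓞 K)[X])
    (G S : Matrix (Fin 3) (Fin 3) (𝓞 K)) : Prop :=
  Gᵀ = G ∧ Sᵀ = S ∧ (∀ i j, G i j ∈ Bx K (B * Real.exp ((d i + d j : ℤ) : ℝ))) ∧
    (∀ i j, S i j ∈ Bx K (B * Real.exp ((d i + d j : ℤ) : ℝ) * Y)) ∧ G.det ≠ 0 ∧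
    (pen G S).det = C G.det * f ∧ (∀ P ∈ D.T, StdP 3 P.asIdeal f G S) ∧
    ¬ (G 0 0 = 0 ∧ S 0 0 = 0)

variable (K)

/-- KEY with the constant `B`: the pair of matrices of a bad class. -/
def KeyN (B : ℝ) : Prop :=
  ∀ (D : DatN K) (Y : ℕ), D.Ok → 1 ≤ Y → (∀ P ∈ D.T, B < (Nm P : ℝ)) →
    ∀ f ∈ FamN D Y, Bad K D.T f →
    ∃ (d : Fin 3 → ℤ) (G S : Matrix (Fin 3) (Fin 3) (𝓞 K)), Monotone d ∧
      ((∑ i, d i : ℤ) : ℝ) ≤ B ∧ PMN B D Y d f G S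

variable {K}

/-- Over the completions of `K` above `2` the quadratic form of the class of `δ` is isotropic. -/
def Dya (f : (𝓞 K)[X]) (δ : K[X]) : Prop :=
  ∀ (L : Type) [Field L] (O : ValuationSubring L) (ι : K →+* L), Cpl K L O ι → (2 : L)⁻¹ ∉ O →
    SplM 1 ((gr 0 3 (fk K f) δ).map ι)

/-- At the completions of `K` above `2` the class of `δ` is the class of a divisor. -/
def Loc2 (f : (𝓞 K)[X]) (δ : K[X]) : Prop :=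
  ∀ (L : Type) [Field L] (O : ValuationSubring L) (ι : K →+* L), Cpl K L O ι → (2 : L)⁻¹ ∉ O →
    LocSol ((fk K f).map ι) (δ.map ι)

/-- REC: reciprocity, if the primes of `Ram` are in `T'`. -/
def RecN (Ram : Finset (HeightOneSpectrum (𝓞 K))) : Prop :=
  ∀ (D : DatN K) (Y : ℕ), D.Ok → 1 ≤ Y → Ram ⊆ D.T' → ∀ f ∈ FamN D Y,
    ∀ (ϖ : HeightOneSpectrum (𝓞 K) → 𝓞 K) (L : HeightOneSpectrum (𝓞 K) → Type)
    [∀ P, Field (L P)] (O' : ∀ P, ValuationSubring (L P)) (ι : ∀ P, K →+* L P),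
    (∀ P ∈ D.T, CompP P (ϖ P) (L P) (O' P) (ι P)) →
    ∀ (c : ∀ P, O' P) (γ : ∀ P, (O' P)[X]), (∀ P ∈ D.T, OkL (O' P) 1 (γ P) ∧
      (fk K f).map (ι P) = oL (O' P) ((X - C (c P)) * γ P)) →
    ∀ (α β : K[X]) (x y : HeightOneSpectrum (𝓞 K) → Ty),
    (∀ δ ∈ ({α, β} : Set K[X]), IsCoprime δ (fk K f) ∧ NSq (fk K f) δ ∧
      ∀ P : HeightOneSpectrum (𝓞 K), P ∉ D.T → US P.asIdeal f δ) →
    (∀ δ ∈ ({α, β, α * β} : Set K[X]), Dya f δ) →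
    (∀ P ∈ D.T, TyL (O' P) (ι P (algebraMap (𝓞 K) K (ϖ P))) (c P) (γ P) (x P)
      (α.map (ι P))) →
    (∀ P ∈ D.T, TyL (O' P) (ι P (algebraMap (𝓞 K) K (ϖ P))) (c P) (γ P) (y P)
      (β.map (ι P))) →
    ∑ P ∈ D.T, ((x P).1 * (y P).2 + (x P).2 * (y P).1) = 0

variable (K)

/-- ONE: a twist with trivial Selmer group. -/
def OneN (Ram : Finset (HeightOneSpectrum (𝓞 K))) : Prop :=
  ∀ (D : DatN K) (Y : ℕ), D.Ok → 1 ≤ Y → Ram ⊆ D.T' → ∀ f ∈ FamN D Y, Smooth f →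
    ¬ Bad K D.T f → ∃ S ⊆ D.T, ∀ d : 𝓞 K, TwiN D.T D.T' S d → SelK (fk K (f.scaleRoots d))

/-- DEN: most polynomials of the family are smooth. -/
def DenN (A : Finset (HeightOneSpectrum (𝓞 K))) : Prop :=
  ∀ D : DatN K, D.Ok → A ⊆ D.T' → ∃ Y₀ : ℕ, ∀ Y : ℕ, Y₀ ≤ Y →
    4 * {f ∈ FamN D Y | ¬ Smooth f}.ncard ≤ (FamN D Y).ncard

/-- BAD: few polynomials of the family have a bad class. -/
def BadN : Prop :=
  ∀ T' : Finset (HeightOneSpectrum (𝓞 K)), ∃ k₀ b : ℕ, ∀ D : DatN K, D.Ok → D.T' = T' →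
    k₀ ≤ D.T.card → (∀ P ∈ D.T, b < Nm P ∧ 6 * D.T.card ≤ Nm P) →
    ∃ Y₀ : ℕ, ∀ Y : ℕ, Y₀ ≤ Y → 8 * {f ∈ FamN D Y | Bad K D.T f}.ncard ≤ (FamN D Y).ncard

/-- The lower bound for the size of the family, with the constant `c`. -/
def FamLN (c : ℝ) : Prop :=
  ∀ D : DatN K, D.Ok → ∃ Y₀ : ℕ, ∀ Y : ℕ, Y₀ ≤ Y → (FamN D Y).Finite ∧
    (Y : ℝ) ^ (6 * dg K) ≤
      c * ((FamN D Y).ncard * (∏ P ∈ D.T, (Nm P : ℝ) ^ 3) * ∏ P ∈ D.T', (Nm P : ℝ) ^ 3)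

/-- The conclusion: a positive proportion of all cubic polynomials. -/
def PosN : Prop :=
  ∃ δ : ℝ, 0 < δ ∧ ∃ Y₀ : ℝ, ∀ Y : ℝ, Y₀ ≤ Y → (AllN K Y).Finite ∧ 0 < (AllN K Y).ncard ∧
    δ * (AllN K Y).ncard ≤
      {f ∈ AllN K Y | SelK (fk K f) ∧ Irreducible (fk K f)}.ncard

/-- The conclusion for `a_1 = 0`. -/
def PosZN : Prop :=
  ∃ δ : ℝ, 0 < δ ∧ ∃ Y₀ : ℝ, ∀ Y : ℝ, Y₀ ≤ Y →
    0 < {f ∈ AllN K Y | f.coeff 2 = 0}.ncard ∧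
    δ * {f ∈ AllN K Y | f.coeff 2 = 0}.ncard ≤
      {f ∈ AllN K Y | f.coeff 2 = 0 ∧ SelK (fk K f) ∧ Irreducible (fk K f)}.ncard

end Defs

end Pool.NF
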