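import Pool.Agent.H14.NF.RR1
import Pool.Agent.H2.NF.S3
import Pool.Agent.H46.NF.Bx
import Pool.Agent.H85.T1.RECA

/-!
# NF: RECAN, reciprocity for the classes, from its parts
-/

set_option autoImplicit false
set_option linter.unusedSectionVars false

namespace Pool.NF

open Polynomial Matrix NumberField IsDedekindDomain Pool.HYP Pool.TOW Pool.AVS Pool.T1

open Pool.HYP.One86 (gr_map gr_symm norm_ne cop_map nsq_mul nsq_map)

open Pool.T1.RECAaux (us_mul us_one nsq_one gr_det_ne max_iff zmod2_one_or)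

namespace RECANaux

section Prime

variable {K : Type} [Field K] [NumberField K]

theorem rp_int (P : HeightOneSpectrum (𝓞 K)) (a : 𝓞 K) : algebraMap (𝓞 K) K a ∈ RP K P :=
  ⟨1, fun h => P.isPrime.ne_top ((Ideal.eq_top_iff_one _).2 h), a, by rw [map_one, one_mul]⟩

/-- Two is invertible at `P`. -/
theorem two_inv_rp {P : HeightOneSpectrum (𝓞 K)} (h2 : (2 : 𝓞 K) ∉ P.asIdeal) :
    (2 : K)⁻¹ ∈ RP K P :=
  ⟨2, h2, 1, by rw [map_ofNat, map_one, mul_inv_cancel₀ (two_ne_zero : (2 : K) ≠ 0)]⟩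

/-- Two is not invertible at `P`. -/
theorem two_inv_rp_not {P : HeightOneSpectrum (𝓞 K)} (h2 : (2 : 𝓞 K) ∈ P.asIdeal) :
    (2 : K)⁻¹ ∉ RP K P := by
  rintro ⟨m, hm, a, ha⟩
  apply hm
  have h1 : algebraMap (𝓞 K) K m = algebraMap (𝓞 K) K (2 * a) := by
    rw [map_mul, map_ofNat, ← ha]
    have : (2 : K) ≠ 0 := two_ne_zero
    field_simp
  have h3 := RingOfIntegers.coe_injective (K := K) h1
  rw [h3]
  exact Ideal.mul_mem_right _ _ h2

/-- Near at a prime not above `2` where `f` is irreducible. -/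
theorem near_odd (hLSQ : LSQStmt) (hVQB : VQBStmt) (P : HeightOneSpectrum (𝓞 K))
    (h2 : (2 : 𝓞 K) ∉ P.asIdeal) {g : ℕ} {f ρ : (𝓞 K)[X]} (hf : f.Monic)
    (hn : f.natDegree = 2 * g + 1) (hρ : OkP (2 * g + 1) P.asIdeal ρ)
    (hz : Zer P.asIdeal (f - ρ)) {α : K[X]} (hα : IsCoprime α (fk K f))
    (hN : NSq (fk K f) α) :
    Near (RP K P) (gr 0 (2 * g + 1) (fk K f) α) (gr 0 (2 * g + 1) (fk K f) 1) := by
  obtain ⟨ϖ, hϖ1, hϖ2⟩ := Ideal.exists_mem_pow_notMem_pow_succ P.asIdeal P.ne_bot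
    P.isPrime.ne_top 1
  rw [pow_one] at hϖ1
  obtain ⟨⟨V, hV, hu, hval⟩, hv2, hv3⟩ := hVQB (𝓞 K) K P ϖ hϖ1 hϖ2
  have hmem : ∀ x : K, x ∈ V ↔ x ∈ RP K P := by
    intro x
    rw [← hV]
    rfl
  have hRV : ∀ a : 𝓞 K, algebraMap (𝓞 K) K a ∈ V := by
    intro a
    rw [hmem]
    exact rp_int P a
  let φ : 𝓞 K →+* V := (algebraMap (𝓞 K) K).codRestrict V.toSubring hRV
  have hφ : ∀ a, ((φ a : V) : K) = algebraMap (𝓞 K) K a := fun a => rfl
  let ψ : 𝓞 K →+* IsLocalRing.ResidueField V := (IsLocalRing.residue V).comp φ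
  have hψ0 : ∀ a, ψ a = 0 ↔ a ∈ P.asIdeal := by
    intro a
    rw [RingHom.comp_apply, IsLocalRing.residue_eq_zero_iff, max_iff hu, hφ, hmem]
    exact hv2 a
  have hψs : Function.Surjective ψ := by
    intro y
    obtain ⟨x, rfl⟩ := IsLocalRing.residue_surjective y
    obtain ⟨a, ha⟩ := hv3 x ((hmem _).1 x.2)
    refine ⟨a, ?_⟩
    symm
    rw [← sub_eq_zero, RingHom.comp_apply, ← map_sub, IsLocalRing.residue_eq_zero_iff,
      max_iff hu, hmem]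
    exact ha
  let e : 𝓞 K ⧸ P.asIdeal →+* IsLocalRing.ResidueField V :=
    Ideal.Quotient.lift P.asIdeal ψ fun a ha => (hψ0 a).2 ha
  have he : e.comp (Ideal.Quotient.mk P.asIdeal) = ψ := Ideal.Quotient.lift_comp_mk _ _ _
  have hei : Function.Injective e := by
    rw [injective_iff_map_eq_zero]
    intro y hy
    obtain ⟨a, rfl⟩ := Ideal.Quotient.mk_surjective y
    rw [← RingHom.comp_apply, he, hψ0] at hy
    exact Ideal.Quotient.eq_zero_iff_mem.2 hy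
  have hes : Function.Surjective e := by
    intro y
    obtain ⟨a, rfl⟩ := hψs y
    exact ⟨Ideal.Quotient.mk _ a, by rw [← RingHom.comp_apply, he]⟩
  have hfin : Finite (IsLocalRing.ResidueField V) := by
    have := finite_quot (K := K) P.ne_bot
    exact Finite.of_surjective e hes
  have hfK : (fk K f).scaleRoots 1 = oL V (f.map φ) := by
    rw [scaleRoots_one, oL, Polynomial.map_map]
    rfl
  have hirr : Irreducible (rd V (f.map φ)) := by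
    have h1 : rd V (f.map φ) = (md P.asIdeal ρ).map e := by
      rw [rd, md, Polynomial.map_map, Polynomial.map_map, he]
      ext n
      rw [coeff_map, coeff_map]
      have h2 := hz n
      rw [coeff_sub, ← hψ0, map_sub, sub_eq_zero] at h2
      exact h2
    rw [h1]
    have h3 := (MulEquiv.irreducible_iff (Polynomial.mapEquiv (RingEquiv.ofBijective e
      ⟨hei, hes⟩))).2 hρ.2.2
    exact h3
  have hmain := hLSQ K V (algebraMap (𝓞 K) K ϖ) two_ne_zero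
    ((hmem _).2 (two_inv_rp h2)) hu hval hfin (2 * g + 1)
    (fk K f) 1 (f.map φ) α (hf.map _) (by rw [fk, hf.natDegree_map, hn]) ⟨g, rfl⟩ one_ne_zero
    hfK hirr hα hN
  rwa [hV] at hmain

/-- The form of the trivial class is isotropic. -/
theorem spl_one {L : Type} [Field L] {f : L[X]} (hf : f.Monic) (hn : f.natDegree = 3) :
    SplM 1 (gr 0 3 f 1) := by
  refine ⟨fun _ => Pi.single 0 1, ?_, ?_⟩
  · rw [linearIndependent_unique_iff]
    intro h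
    have := congrFun h 0
    simp at this
  · intro i j
    rw [Matrix.mulVec_single_one, single_one_dotProduct]
    show tau f (X ^ (((0 : Fin 3) : ℕ) + ((0 : Fin 3) : ℕ) + 0) * 1) = 0
    have h1 : (X ^ (((0 : Fin 3) : ℕ) + ((0 : Fin 3) : ℕ) + 0) * 1 : L[X]) = 1 := by simp
    rw [h1, tau, hn, modByMonic_eq_self_iff hf |>.2]
    · rw [coeff_one]
      simp
    · rw [degree_one]
      exact natDegree_pos_iff_degree_pos.1 (by omega)

/-- Near at a prime above `2`. -/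
theorem near_two (hCMP2 : CMP2Stmt) (hISO2 : ISO2Stmt) (P : HeightOneSpectrum (𝓞 K))
    (h2 : (2 : 𝓞 K) ∈ P.asIdeal) {f : (𝓞 K)[X]} (hf : f.Monic)
    (hn : f.natDegree = 3) {α : K[X]} (hα : IsCoprime α (fk K f))
    (hN : NSq (fk K f) α) (hD : Dya f α) :
    Near (RP K P) (gr 0 3 (fk K f) α) (gr 0 3 (fk K f) 1) := by
  obtain ⟨L, _, O, ι, hC, hO⟩ := hCMP2 K P
  have hfKm : (fk K f).Monic := hf.map _
  have hfKn : (fk K f).natDegree = 3 := by rw [fk, hf.natDegree_map, hn]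
  refine hISO2 K (RP K P) L O ι hC hO two_ne_zero _ _ (gr_symm _ _ _ _) (gr_symm _ _ _ _)
    (gr_det_ne hfKm hfKn hα) (gr_det_ne hfKm hfKn isCoprime_one_left) ?_ ?_ ?_
  · rw [(gdt K 3 (fk K f) hfKm hfKn).1, (gdt K 3 (fk K f) hfKm hfKn).2]
    obtain ⟨r, hr⟩ := hN
    rw [hr]
    exact ⟨(-1) ^ (3 * (3 - 1) / 2) * r, by ring⟩
  · refine hD L O ι hC ?_
    intro h
    apply two_inv_rp_not h2
    rw [← hO, map_inv₀, map_ofNat]
    exact h
  · rw [← gr_map ι 0 3 hfKm, Polynomial.map_one]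
    exact spl_one (hfKm.map _) (by rw [hfKm.natDegree_map, hfKn])

end Prime

section Main

variable {K : Type} [Field K] [NumberField K]

/-- The sum formula for one class. -/
theorem one_class (hUSG : USGStmt) (hLSQ : LSQStmt) (hQSL : QSLStmt) (hQSK : QSKStmt)
    (hVQB : VQBStmt) (hCMP2 : CMP2Stmt) (hISO2 : ISO2Stmt) (hLSR : LSRStmt)
    {Ram : Finset (HeightOneSpectrum (𝓞 K))}
    (hRam : ∀ (g : ℕ)
      (T : Finset (HeightOneSpectrum (𝓞 K))) (ϖ : HeightOneSpectrum (𝓞 K) → 𝓞 K)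
      (d : HeightOneSpectrum (𝓞 K) → K), Disjoint T Ram →
      (∀ P ∈ T, ϖ P ∈ P.asIdeal ∧ ϖ P ∉ P.asIdeal ^ 2) →
      ∀ A B : Matrix (Fin (2 * g + 1)) (Fin (2 * g + 1)) K, Aᵀ = A → Bᵀ = B → A.det ≠ 0 →
      B.det ≠ 0 → IsSquare (A.det * B.det) →
      (∀ σ : K →+* ℝ, CongR (A.map σ) (B.map σ)) →
      (∀ P ∈ Ram, Near (RP K P) A B) →
      (∀ P : HeightOneSpectrum (𝓞 K), P ∉ Ram → SD (RP K P) B) →
      (∀ P : HeightOneSpectrum (𝓞 K), P ∉ Ram → P ∉ T → SD (RP K P) A) →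
      (∀ P ∈ T, ∃ k : Matrix (Fin (2 * g + 1)) (Fin (2 * g + 1)) K, k.det ≠ 0 ∧
        BlkQ (RP K P) (ϖ P : K) (kᵀ * A * k) ∧ d P = Pool.T1.dsc (ϖ P : K) (kᵀ * A * k)) →
      Even {P | P ∈ T ∧ ¬ SqQ (RP K P) (ϖ P : K) ((-1) ^ g * d P)}.ncard)
    {D : DatN K} {Y : ℕ} (hD : D.Ok) (hY : 1 ≤ Y) (hRT : Ram ⊆ D.T')
    {f : (𝓞 K)[X]} (hf : f ∈ FamN D Y)
    {ϖ : HeightOneSpectrum (𝓞 K) → 𝓞 K} {L : HeightOneSpectrum (𝓞 K) → Type}
    [∀ P, Field (L P)] {O' : ∀ P, ValuationSubring (L P)} {ι : ∀ P, K →+* L P}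
    (hC : ∀ P ∈ D.T, CompP P (ϖ P) (L P) (O' P) (ι P))
    {c : ∀ P, O' P} {γ : ∀ P, (O' P)[X]} (hcγ : ∀ P ∈ D.T, OkL (O' P) 1 (γ P) ∧
      (fk K f).map (ι P) = oL (O' P) ((X - C (c P)) * γ P))
    {δ : K[X]} {z : HeightOneSpectrum (𝓞 K) → Ty} (hδ1 : IsCoprime δ (fk K f))
    (hδ2 : NSq (fk K f) δ) (hδ3 : ∀ P : HeightOneSpectrum (𝓞 K), P ∉ D.T → US P.asIdeal f δ)
    (hδ4 : Dya f δ)
    (hz : ∀ P ∈ D.T, TyL (O' P) (ι P (algebraMap (𝓞 K) K (ϖ P))) (c P) (γ P) (z P)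
      (δ.map (ι P))) :
    ∑ P ∈ D.T, (z P).1 * (z P).2 = 0 := by
  classical
  obtain ⟨hfm, hfn, hfnear, hf3, hf4⟩ := hf
  obtain ⟨hdis, hT, hT', h23⟩ := hD
  have hfKm : (fk K f).Monic := hfm.map _
  have hfKn : (fk K f).natDegree = 2 * 1 + 1 := by rw [fk, hfm.natDegree_map, hfn]
  obtain ⟨A, hA⟩ : ∃ A, A = gr 0 (2 * 1 + 1) (fk K f) δ := ⟨_, rfl⟩
  obtain ⟨B, hB⟩ : ∃ B, B = gr 0 (2 * 1 + 1) (fk K f) 1 := ⟨_, rfl⟩
  have hAs : Aᵀ = A := by rw [hA]; exact gr_symm _ _ _ _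
  have hBs : Bᵀ = B := by rw [hB]; exact gr_symm _ _ _ _
  have hA0 : A.det ≠ 0 := by rw [hA]; exact gr_det_ne hfKm hfKn hδ1
  have hB0 : B.det ≠ 0 := by rw [hB]; exact gr_det_ne hfKm hfKn isCoprime_one_left
  have hAB : IsSquare (A.det * B.det) := by
    rw [hA, hB, (gdt K _ (fk K f) hfKm hfKn).1, (gdt K _ (fk K f) hfKm hfKn).2]
    obtain ⟨r, hr⟩ := hδ2
    rw [hr]
    exact ⟨(-1) ^ ((2 * 1 + 1) * (2 * 1 + 1 - 1) / 2) * r, by ring⟩
  have hAmap : ∀ P ∈ D.T, A.map (ι P) =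
      gr 0 (2 * 1 + 1) (oL (O' P) ((X - C (c P)) * γ P)) (δ.map (ι P)) := by
    intro P hP
    rw [← (hcγ P hP).2, gr_map (ι P) 0 (2 * 1 + 1) hfKm, hA]
  have hcop : ∀ P ∈ D.T, IsCoprime (δ.map (ι P)) (oL (O' P) ((X - C (c P)) * γ P)) := by
    intro P hP
    rw [← (hcγ P hP).2]
    exact cop_map (ι P) hδ1
  have hnsq : ∀ P ∈ D.T, NSq (oL (O' P) ((X - C (c P)) * γ P)) (δ.map (ι P)) := by
    intro P hP
    rw [← (hcγ P hP).2]
    exact nsq_map (ι P) hfKm hδ2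
  have hqsl := fun P (hP : P ∈ D.T) => hQSL (L P) (O' P)
    (ι P (algebraMap (𝓞 K) K (ϖ P))) (hC P hP).loc 1 (c P) (γ P) le_rfl (hcγ P hP).1
    (δ.map (ι P)) (z P) (hcop P hP) (hnsq P hP) (hz P hP)
  have hqsk := fun P (hP : P ∈ D.T) => hQSK (𝓞 K) K P (ϖ P) (L P) (O' P) (ι P) (hC P hP)
  have hk : ∀ P : HeightOneSpectrum (𝓞 K),
      ∃ k : Matrix (Fin (2 * 1 + 1)) (Fin (2 * 1 + 1)) K, P ∈ D.T → (z P).1 = 1 →
        k.det ≠ 0 ∧ BlkQ (RP K P) (algebraMap (𝓞 K) K (ϖ P)) (kᵀ * A * k) ∧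
        (SqQ (RP K P) (algebraMap (𝓞 K) K (ϖ P)) ((-1) ^ 1 *
          Pool.T1.dsc (algebraMap (𝓞 K) K (ϖ P)) (kᵀ * A * k)) ↔ (z P).2 = 0) := by
    intro P
    by_cases hP : P ∈ D.T ∧ (z P).1 = 1
    · obtain ⟨k, hk0, hk1, hk2⟩ := (hqsl P hP.1).2 hP.2
      rw [← hAmap P hP.1] at hk1 hk2
      obtain ⟨k', h1, h2, h3⟩ := ((hqsk P hP.1).2.2 1 A hAs).2 k hk0 hk1
      exact ⟨k', fun _ _ => ⟨h1, h2, h3.trans hk2⟩⟩
    · exact ⟨1, fun h1 h2 => absurd ⟨h1, h2⟩ hP⟩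
  choose k hk using hk
  have hirr : Irreducible (fk K f) := by
    obtain ⟨P, hP⟩ : ∃ P : HeightOneSpectrum (𝓞 K), (2 : 𝓞 K) ∈ P.asIdeal := by
      have h2 : ¬ IsUnit (2 : 𝓞 K) := by
        intro h
        rw [NumberField.isUnit_iff_norm, RingOfIntegers.coe_norm] at h
        have h5 : Algebra.norm ℚ ((2 : 𝓞 K) : K) = 2 ^ Module.finrank ℚ K := by
          have : ((2 : 𝓞 K) : K) = algebraMap ℚ K 2 := by
            rw [map_ofNat]
            rfl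
          rw [this, Algebra.norm_algebraMap]
        rw [h5, abs_of_nonneg (by positivity)] at h
        have h10 : 0 < Module.finrank ℚ K := Module.finrank_pos
        have h11 : (1 : ℚ) < 2 ^ Module.finrank ℚ K := one_lt_pow₀ (by norm_num) h10.ne'
        exact h11.ne' h
      obtain ⟨M, hM, hM2⟩ := exists_max_ideal_of_mem_nonunits h2
      have hM0 : M ≠ ⊥ := by
        rintro rfl
        exact two_ne_zero ((Ideal.mem_bot).1 hM2)
      exact ⟨⟨M, hM.isPrime, hM0⟩, hM2⟩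
    have hPT := h23 P (Or.inl hP)
    exact irr_of_md P hfm (hT' P hPT).2.2 (hf4 P hPT)
  have hsep : (fk K f).Separable := hirr.separable
  have hev := hRam 1 (D.T.filter fun P => (z P).1 = 1) ϖ
    (fun P => Pool.T1.dsc (algebraMap (𝓞 K) K (ϖ P)) ((k P)ᵀ * A * k P)) ?_ ?_ A B hAs hBs hA0 hB0
    hAB ?_ ?_ ?_ ?_ ?_
  · have h1 : {P | P ∈ (D.T.filter fun P => (z P).1 = 1) ∧
        ¬ SqQ (RP K P) ((ϖ P : 𝓞 K) : K) ((-1) ^ 1 *
          Pool.T1.dsc (algebraMap (𝓞 K) K (ϖ P)) ((k P)ᵀ * A * k P))} =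
        ((D.T.filter fun P => (z P).1 = 1 ∧ (z P).2 = 1 :
          Finset (HeightOneSpectrum (𝓞 K))) : Set (HeightOneSpectrum (𝓞 K))) := by
      ext P
      simp only [Set.mem_ofPred_eq, Finset.mem_filter, Finset.mem_coe]
      constructor
      · rintro ⟨⟨h1, h2⟩, h3⟩
        refine ⟨h1, h2, ?_⟩
        rcases zmod2_one_or (z P).2 with h4 | h4
        · exact absurd ((hk P h1 h2).2.2.2 h4) h3
        · exact h4
      · rintro ⟨h1, h2, h3⟩
        refine ⟨⟨h1, h2⟩, fun h4 => ?_⟩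
        have h5 := (hk P h1 h2).2.2.1 h4
        rw [h3] at h5
        exact one_ne_zero h5
    rw [h1, Set.ncard_coe_finset] at hev
    have h2 : ∑ P ∈ D.T, (z P).1 * (z P).2 =
        ((D.T.filter fun P => (z P).1 = 1 ∧ (z P).2 = 1).card : ZMod 2) := by
      rw [Finset.card_filter, Nat.cast_sum]
      refine Finset.sum_congr rfl fun P _ => ?_
      rcases zmod2_one_or (z P).1 with h3 | h3 <;> rcases zmod2_one_or (z P).2 with h4 | h4 <;>
        simp [h3, h4]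
    rw [h2]
    exact (ZMod.natCast_eq_zero_iff_even).2 hev
  · exact (hdis.mono_left (Finset.filter_subset _ _)).mono_right hRT
  · intro P hP
    have h1 := hqsk P (Finset.mem_filter.1 hP).1
    exact ⟨h1.1, h1.2.1⟩
  · intro σ
    rw [hA, hB, ← gr_map σ 0 (2 * 1 + 1) hfKm, ← gr_map σ 0 (2 * 1 + 1) hfKm,
      Polynomial.map_one]
    exact hLSR _ _ (hfKm.map _) (by rw [hfKm.natDegree_map, hfKn]) hsep.map.squarefree
      (rr1 hY hfm hfn hfnear σ) (cop_map σ hδ1) (nsq_map σ hfKm hδ2)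
  · intro P hP
    rw [hA, hB]
    by_cases h2 : (2 : 𝓞 K) ∈ P.asIdeal
    · exact near_two hCMP2 hISO2 P h2 hfm hfn hδ1 hδ2 hδ4
    · exact near_odd hLSQ hVQB P h2 hfm hfn (hT' P (hRT hP)) (hf4 P (hRT hP)) hδ1 hδ2
  · intro P _
    rw [hB]
    exact hUSG (𝓞 K) K P (2 * 1 + 1) f 1 hfm hfn isCoprime_one_left us_one
  · intro P _ hP
    rw [Finset.mem_filter, not_and] at hP
    by_cases hPT : P ∈ D.T
    · have h1 : (z P).1 = 0 := by
        rcases zmod2_one_or (z P).1 with h2 | h2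
        · exact h2
        · exact absurd h2 (hP hPT)
      have h2 := (hqsl P hPT).1 h1
      rw [← hAmap P hPT] at h2
      exact ((hqsk P hPT).2.2 1 A hAs).1 h2
    · rw [hA]
      exact hUSG (𝓞 K) K P (2 * 1 + 1) f δ hfm hfn hδ1 (hδ3 P hPT)
  · intro P hP
    obtain ⟨h1, h2⟩ := Finset.mem_filter.1 hP
    exact ⟨k P, (hk P h1 h2).1, (hk P h1 h2).2.1, rfl⟩

end Main

end RECANaux

open RECANaux

/-- RECAN. -/
theorem recan (hRCPN : RCPNStmt) (hUSG : USGStmt) (hLSQ : LSQStmt) (hQSL : QSLStmt)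
    (hQSK : QSKStmt) (hVQB : VQBStmt) (hTYM : TYMStmt) (hCMP2 : CMP2Stmt) (hISO2 : ISO2Stmt)
    (hLSR : LSRStmt) (K : Type) [Field K] [NumberField K] :
    ∃ Ram : Finset (HeightOneSpectrum (𝓞 K)), RecN (K := K) Ram := by
  obtain ⟨Ram, hRam⟩ := hRCPN K
  refine ⟨Ram, ?_⟩
  intro D Y hD hY hRT f hf ϖ L _ O' ι hC c γ hcγ α β x y hδ hdy hx hy
  have hfKm : (fk K f).Monic := hf.1.map _
  obtain ⟨hα1, hα2, hα3⟩ := hδ α (by simp)
  obtain ⟨hβ1, hβ2, hβ3⟩ := hδ β (by simp)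
  have e1 := one_class hUSG hLSQ hQSL hQSK hVQB hCMP2 hISO2 hLSR hRam hD hY hRT hf hC hcγ
    hα1 hα2 hα3 (hdy α (by simp)) hx
  have e2 := one_class hUSG hLSQ hQSL hQSK hVQB hCMP2 hISO2 hLSR hRam hD hY hRT hf hC hcγ
    hβ1 hβ2 hβ3 (hdy β (by simp)) hy
  have e3 := one_class hUSG hLSQ hQSL hQSK hVQB hCMP2 hISO2 hLSR hRam hD hY hRT hf hC hcγ
    (δ := α * β) (z := fun P => x P + y P) (hα1.mul_left hβ1) (nsq_mul hα2 hβ2)
    (fun P hP => us_mul (hα3 P hP) (hβ3 P hP)) (hdy _ (by simp)) (by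
      intro P hP
      rw [Polynomial.map_mul]
      refine hTYM (L P) (O' P) (ι P (algebraMap (𝓞 K) K (ϖ P))) (hC P hP).loc 1 (c P) (γ P)
        le_rfl (hcγ P hP).1 (α.map (ι P)) (β.map (ι P)) (x P) (y P) ?_ ?_ ?_ ?_ (hx P hP)
        (hy P hP)
      · rw [← (hcγ P hP).2]
        exact cop_map (ι P) hα1
      · rw [← (hcγ P hP).2]
        exact cop_map (ι P) hβ1
      · rw [← (hcγ P hP).2]
        exact nsq_map (ι P) hfKm hα2
      · rw [← (hcγ P hP).2]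
        exact nsq_map (ι P) hfKm hβ2)
  have e4 : ∑ P ∈ D.T, ((x P).1 * (y P).2 + (x P).2 * (y P).1) =
      ∑ P ∈ D.T, (x P + y P).1 * (x P + y P).2 - ∑ P ∈ D.T, (x P).1 * (x P).2 -
        ∑ P ∈ D.T, (y P).1 * (y P).2 := by
    rw [← Finset.sum_sub_distrib, ← Finset.sum_sub_distrib]
    refine Finset.sum_congr rfl fun P _ => ?_
    rw [Prod.fst_add, Prod.snd_add]
    ring
  rw [e4, e1, e2, e3, sub_zero, sub_zero]

end Pool.NF
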