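import Pool.Agent.H14.NF.Base
import Pool.Agent.H94.NF.DENN

/-!
# NF: at the real places the polynomials of the family have exactly one real root
-/

set_option autoImplicit false

namespace Pool.NF

open Polynomial Matrix NumberField IsDedekindDomain Pool.HYP Pool.TOW Pool.AVS Pool.T1

namespace RR1

/-- A real root is at least `Y / 2`. -/
theorem root_ge {a b c Y x : ℝ} (hY : 0 < Y) (ha : |a| ≤ Y / 100) (hb : |b| ≤ Y ^ 2 / 100)
    (hc : |c + Y ^ 3| ≤ Y ^ 3 / 100) (hx : x ^ 3 + a * x ^ 2 + b * x + c = 0) : Y / 2 ≤ x := by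
  by_contra hlt
  push Not at hlt
  obtain ⟨ha1, ha2⟩ := abs_le.1 ha
  obtain ⟨hb1, hb2⟩ := abs_le.1 hb
  obtain ⟨hc1, hc2⟩ := abs_le.1 hc
  have hY2 : 0 < Y ^ 2 := by positivity
  have hY3 : 0 < Y ^ 3 := by positivity
  rcases le_or_gt (-(Y / 2)) x with h | h
  · -- `|x| ≤ Y / 2`
    have hx2 : x ^ 2 ≤ Y ^ 2 / 4 := by nlinarith
    have hx2' : 0 ≤ x ^ 2 := sq_nonneg x
    have h1 : x ^ 3 ≤ Y ^ 3 / 8 := by
      have : x ^ 3 = x * x ^ 2 := by ring
      rw [this]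
      rcases le_or_gt 0 x with h0 | h0
      · calc x * x ^ 2 ≤ (Y / 2) * (Y ^ 2 / 4) := by
              apply mul_le_mul hlt.le hx2 hx2' (by positivity)
          _ = Y ^ 3 / 8 := by ring
      · have : x * x ^ 2 ≤ 0 := mul_nonpos_of_nonpos_of_nonneg h0.le hx2'
        linarith [hY3]
    have h2 : a * x ^ 2 ≤ Y / 100 * (Y ^ 2 / 4) := by
      calc a * x ^ 2 ≤ Y / 100 * x ^ 2 := mul_le_mul_of_nonneg_right ha2 hx2'
        _ ≤ Y / 100 * (Y ^ 2 / 4) := mul_le_mul_of_nonneg_left hx2 (by positivity)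
    have h3 : b * x ≤ Y ^ 2 / 100 * (Y / 2) := by
      have h4 : |b * x| ≤ Y ^ 2 / 100 * (Y / 2) := by
        rw [abs_mul]
        exact mul_le_mul hb (abs_le.2 ⟨h, hlt.le⟩) (abs_nonneg _) (by positivity)
      exact (le_abs_self _).trans h4
    have h5 : Y / 100 * (Y ^ 2 / 4) = Y ^ 3 / 400 := by ring
    have h6 : Y ^ 2 / 100 * (Y / 2) = Y ^ 3 / 200 := by ring
    rw [h5] at h2
    rw [h6] at h3
    linarith
  · -- `x < - Y / 2`
    obtain ⟨z, hz⟩ : ∃ z, z = -x := ⟨_, rfl⟩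
    have hz1 : Y / 2 < z := by linarith
    have hx' : x = -z := by linarith
    subst hx'
    have h1 : a * (-z) ^ 2 ≤ Y / 100 * z ^ 2 := by
      have : (-z) ^ 2 = z ^ 2 := by ring
      rw [this]
      exact mul_le_mul_of_nonneg_right ha2 (sq_nonneg z)
    have h2 : b * (-z) ≤ Y ^ 2 / 100 * z := by
      have : b * (-z) = (-b) * z := by ring
      rw [this]
      exact mul_le_mul_of_nonneg_right (by linarith) (by linarith)
    have h3 : Y * z ^ 2 ≤ 2 * z ^ 3 := by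
      have : 2 * z ^ 3 - Y * z ^ 2 = z ^ 2 * (2 * z - Y) := by ring
      have : 0 ≤ z ^ 2 * (2 * z - Y) := mul_nonneg (sq_nonneg z) (by linarith)
      linarith
    have h4 : Y ^ 2 * z ≤ 4 * z ^ 3 := by
      have : 4 * z ^ 3 - Y ^ 2 * z = z * ((2 * z - Y) * (2 * z + Y)) := by ring
      have : 0 ≤ z * ((2 * z - Y) * (2 * z + Y)) :=
        mul_nonneg (by linarith) (mul_nonneg (by linarith) (by linarith))
      linarith
    have h5 : 0 < z ^ 3 := by
      have : 0 < z := by linarith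
      positivity
    have h6 : (-z) ^ 3 = -z ^ 3 := by ring
    rw [h6] at hx
    have h7 : Y / 100 * z ^ 2 = Y * z ^ 2 / 100 := by ring
    have h8 : Y ^ 2 / 100 * z = Y ^ 2 * z / 100 := by ring
    rw [h7] at h1
    rw [h8] at h2
    linarith

/-- Uniqueness of the real root. -/
theorem root_unique {a b c Y x y : ℝ} (hY : 0 < Y) (ha : |a| ≤ Y / 100)
    (hb : |b| ≤ Y ^ 2 / 100) (hc : |c + Y ^ 3| ≤ Y ^ 3 / 100)
    (hx : x ^ 3 + a * x ^ 2 + b * x + c = 0) (hy : y ^ 3 + a * y ^ 2 + b * y + c = 0) :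
    x = y := by
  have h1 := root_ge hY ha hb hc hx
  have h2 := root_ge hY ha hb hc hy
  obtain ⟨ha1, ha2⟩ := abs_le.1 ha
  obtain ⟨hb1, hb2⟩ := abs_le.1 hb
  have h3 : (x - y) * (x ^ 2 + x * y + y ^ 2 + a * (x + y) + b) = 0 := by
    linear_combination hx - hy
  have h4 : 0 < x ^ 2 + x * y + y ^ 2 + a * (x + y) + b := by
    have h5 : -(Y / 100) * (x + y) ≤ a * (x + y) :=
      mul_le_mul_of_nonneg_right (by linarith) (by linarith)
    have h6 : Y * x ≤ 2 * x ^ 2 := by nlinarith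
    have h7 : Y * y ≤ 2 * y ^ 2 := by nlinarith
    have h8 : Y ^ 2 ≤ 4 * x ^ 2 := by nlinarith
    have h9 : 0 < x := by linarith
    have h10 : 0 < y := by linarith
    have h11 : 0 < x * y := mul_pos h9 h10
    have h12 : 0 < x ^ 2 := by positivity
    have h13 : 0 < y ^ 2 := by positivity
    nlinarith
  rcases mul_eq_zero.1 h3 with h5 | h5
  · linarith
  · exact absurd h5 h4.ne'

/-- Existence of the real root. -/
theorem root_exists {a b c Y : ℝ} (hY : 0 < Y) (ha : |a| ≤ Y / 100)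
    (hb : |b| ≤ Y ^ 2 / 100) (hc : |c + Y ^ 3| ≤ Y ^ 3 / 100) :
    ∃ x : ℝ, x ^ 3 + a * x ^ 2 + b * x + c = 0 := by
  obtain ⟨ha1, ha2⟩ := abs_le.1 ha
  obtain ⟨hb1, hb2⟩ := abs_le.1 hb
  obtain ⟨hc1, hc2⟩ := abs_le.1 hc
  have hY3 : 0 < Y ^ 3 := by positivity
  have hY2 : 0 < Y ^ 2 := by positivity
  have hcont : ContinuousOn (fun x : ℝ => x ^ 3 + a * x ^ 2 + b * x + c)
      (Set.Icc 0 (2 * Y)) := by fun_prop
  have h0 : (fun x : ℝ => x ^ 3 + a * x ^ 2 + b * x + c) 0 ≤ 0 := by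
    simp only
    nlinarith
  have h1 : 0 ≤ (fun x : ℝ => x ^ 3 + a * x ^ 2 + b * x + c) (2 * Y) := by
    simp only
    have h2 : -(Y / 100) * (2 * Y) ^ 2 ≤ a * (2 * Y) ^ 2 :=
      mul_le_mul_of_nonneg_right (by linarith) (sq_nonneg _)
    have h3 : -(Y ^ 2 / 100) * (2 * Y) ≤ b * (2 * Y) :=
      mul_le_mul_of_nonneg_right (by linarith) (by linarith)
    nlinarith
  obtain ⟨x, -, hx⟩ := intermediate_value_Icc (by linarith : (0 : ℝ) ≤ 2 * Y) hcont ⟨h0, h1⟩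
  exact ⟨x, hx⟩

end RR1

/-- RR1: exactly one real root. -/
theorem rr1 {K : Type} [Field K] [NumberField K] {Y : ℕ} (hY : 1 ≤ Y) {f : (𝓞 K)[X]}
    (hf : f.Monic) (hn : f.natDegree = 3) (hnear : NearN Y f) (σ : K →+* ℝ) :
    ∃! x : ℝ, ((fk K f).map σ).eval x = 0 := by
  obtain ⟨h1, h2, h3⟩ := hnear
  have hY0 : (0 : ℝ) < Y := by
    have : (1 : ℝ) ≤ Y := by exact_mod_cast hY
    linarith
  have key : ∀ (a : 𝓞 K) (B : ℝ), a ∈ Bx K B → |σ (a : K)| ≤ B := by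
    intro a B ha
    have h4 := ha (Complex.ofRealHom.comp σ)
    rw [RingHom.comp_apply] at h4
    rwa [Complex.ofRealHom_eq_coe, Complex.norm_real, Real.norm_eq_abs] at h4
  have ha := key _ _ h1
  have hb := key _ _ h2
  have hc := key _ _ h3
  have hc' : |σ ((f.coeff 0 : 𝓞 K) : K) + (Y : ℝ) ^ 3| ≤ (Y : ℝ) ^ 3 / 100 := by
    have h5 : σ (((f.coeff 0 + (Y : 𝓞 K) ^ 3 : 𝓞 K)) : K) =
        σ ((f.coeff 0 : 𝓞 K) : K) + (Y : ℝ) ^ 3 := by
      push_cast
      rw [map_add, map_pow, map_natCast]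
    rwa [h5] at hc
  have hev : ∀ x : ℝ, ((fk K f).map σ).eval x = x ^ 3 + σ ((f.coeff 2 : 𝓞 K) : K) * x ^ 2 +
      σ ((f.coeff 1 : 𝓞 K) : K) * x + σ ((f.coeff 0 : 𝓞 K) : K) := by
    intro x
    have hd : ((fk K f).map σ).natDegree = 3 := by
      rw [natDegree_map, fk, hf.natDegree_map, hn]
    have hm : ((fk K f).map σ).coeff 3 = 1 := by
      have : ((fk K f).map σ).Monic := (hf.map _).map _
      rw [← hd]
      exact this
    rw [eval_eq_sum_range, hd]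
    simp only [Finset.sum_range_succ, Finset.sum_range_zero]
    rw [hm]
    simp only [coeff_map]
    ring
  obtain ⟨x, hx⟩ := RR1.root_exists hY0 ha hb hc'
  refine ⟨x, (hev x).trans hx, fun y hy => ?_⟩
  have hy' := (hev y).symm.trans hy
  exact RR1.root_unique hY0 ha hb hc' hy' hx

end Pool.NF
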